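import Mathlib

/-! Test functions with nonnegative central hyperplane integrals; positive definite kernels. -/

namespace Pool.Agent.H.MP_937656_gt

open MeasureTheory Set Metric Finset

variable {V V' W : Type*}
  [NormedAddCommGroup V] [NormedSpace ℝ V] [FiniteDimensional ℝ V] [MeasurableSpace V]
  [BorelSpace V]
  [NormedAddCommGroup V'] [NormedSpace ℝ V'] [FiniteDimensional ℝ V'] [MeasurableSpace V']
  [BorelSpace V']
  [NormedAddCommGroup W] [NormedSpace ℝ W] [FiniteDimensional ℝ W] [MeasurableSpace W]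
  [BorelSpace W]

def Test (ν : Measure W) (φ : V → ℝ) : Prop :=
  Continuous φ ∧ HasCompactSupport φ ∧ (∀ x, φ (-x) = φ x) ∧
    ∀ J : W →L[ℝ] V, Function.Injective J → 0 ≤ ∫ y, φ (J y) ∂ν

def Hyp (ν : Measure W) (μ : Measure V) (k : V → ℝ) : Prop :=
  ∀ φ : V → ℝ, Test ν φ → 0 ≤ ∫ x, φ x * k x ∂μ

theorem haar (μ : Measure V) [μ.IsAddHaarMeasure] (μ' : Measure V') [μ'.IsAddHaarMeasure]
    (T : V' ≃L[ℝ] V) : ∃ c : ℝ, 0 ≤ c ∧ ∀ F : V → ℝ, ∫ x, F (T x) ∂μ' = c * ∫ x, F x ∂μ := by
  refine ⟨Measure.addHaarScalarFactor (μ'.map T) μ, NNReal.coe_nonneg _, fun F => ?_⟩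
  have h1 : ∫ x, F x ∂(μ'.map T) = ∫ x, F (T x) ∂μ' :=
    T.toHomeomorph.measurableEmbedding.integral_map (μ := μ') F
  rw [← h1]
  have := Measure.isAddLeftInvariant_eq_smul (μ'.map T) μ
  conv_lhs => rw [this]
  rw [integral_smul_nnreal_measure]; rfl

theorem transfer {ν : Measure W} (μ : Measure V) [μ.IsAddHaarMeasure] (μ' : Measure V')
    [μ'.IsAddHaarMeasure] (T : V' ≃L[ℝ] V) {k : V → ℝ} (h : Hyp ν μ k) :
    Hyp ν μ' fun x => k (T x) := by
  rintro φ ⟨h1, h2, h3, h4⟩
  obtain ⟨c, c0, hc⟩ := haar μ μ' T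
  have := hc fun x => φ (T.symm x) * k x
  simp only [T.symm_apply_apply] at this
  rw [this]
  refine mul_nonneg c0 (h _ ⟨h1.comp T.symm.continuous, h2.comp_homeomorph T.symm.toHomeomorph,
    fun x => by simp only [map_neg, h3], fun J hJ => ?_⟩)
  exact h4 ((T.symm : V →L[ℝ] V').comp J) (T.symm.injective.comp hJ)

theorem supp_ball {ψ : V → ℝ} (h : HasCompactSupport ψ) :
    ∃ R, 0 < R ∧ ∀ x, R ≤ ‖x‖ → ψ x = 0 := by
  obtain ⟨R, R0, hR⟩ := h.isCompact.isBounded.exists_pos_norm_lt
  exact ⟨R, R0, fun x hx => by_contra fun h' => (hR x (subset_tsupport _ h')).not_ge hx⟩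

theorem sq_nonneg' (ν : Measure W) [ν.IsAddHaarMeasure] {Ψ : W × ℝ → ℝ} (h1 : Continuous Ψ)
    (h2 : HasCompactSupport Ψ) :
    0 ≤ ∫ y, ∫ z : W × ℝ, Ψ z * Ψ (z + (y, 0)) ∂(ν.prod volume) ∂ν := by
  obtain ⟨R, R0, hR⟩ := supp_ball h2
  have hI : Integrable (Function.uncurry fun (y : W) (z : W × ℝ) => Ψ z * Ψ (z + (y, 0)))
      (ν.prod (ν.prod volume)) := by
    refine Continuous.integrable_of_hasCompactSupport (by unfold Function.uncurry; fun_prop)
      (HasCompactSupport.intro (isCompact_closedBall 0 (2 * R)) fun p hp => ?_)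
    by_contra h
    obtain ⟨a1, a2⟩ := mul_ne_zero_iff.1 h
    have b1 : ‖p.2‖ < R := lt_of_not_ge fun h => a1 (hR _ h)
    have b2 : ‖p.2 + (p.1, 0)‖ < R := lt_of_not_ge fun h => a2 (hR _ h)
    have b3 := norm_sub_le (p.2 + (p.1, 0)) p.2
    rw [add_sub_cancel_left] at b3
    have b4 : ‖p.1‖ ≤ ‖((p.1, 0) : W × ℝ)‖ := norm_fst_le ((p.1, 0) : W × ℝ)
    exact hp (mem_closedBall_zero_iff.2 (norm_prod_le_iff.2 ⟨by linarith, by linarith⟩))
  have e : ∀ z : W × ℝ, ∫ y, Ψ z * Ψ (z + (y, 0)) ∂ν = Ψ z * ∫ y, Ψ (y, z.2) ∂ν := by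
    intro z
    rw [integral_const_mul, ← integral_add_left_eq_self (fun y => Ψ (y, z.2)) z.1]
    congr 2; funext y; congr 1; ext <;> simp
  have hJ := hI.integral_prod_right
  simp only [Function.uncurry_apply_pair, e] at hJ
  rw [integral_integral_swap hI]
  simp only [e]
  rw [integral_prod_symm _ hJ]
  refine integral_nonneg fun t => ?_
  simp only [integral_mul_const]
  exact mul_self_nonneg _

theorem conv_cont (μ : Measure V) [μ.IsAddHaarMeasure] {ψ : V → ℝ} (h1 : Continuous ψ)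
    (h2 : HasCompactSupport ψ) : Continuous fun x => ∫ z, ψ z * ψ (z + x) ∂μ := by
  have := continuous_parametric_integral_of_continuous (μ := μ)
    (f := fun x z => ψ z * ψ (z + x)) (by unfold Function.uncurry; fun_prop) h2.isCompact
  convert this using 2 with x
  refine (setIntegral_eq_integral_of_forall_compl_eq_zero fun z hz => ?_).symm
  rw [image_eq_zero_of_notMem_tsupport hz, zero_mul]

theorem conv_zero (μ : Measure V) {ψ : V → ℝ} {R : ℝ} (hR : ∀ x, R ≤ ‖x‖ → ψ x = 0) (x : V)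
    (hx : 2 * R ≤ ‖x‖) : ∫ z, ψ z * ψ (z + x) ∂μ = 0 := by
  refine integral_eq_zero_of_ae (ae_of_all _ fun z => ?_)
  by_contra h
  obtain ⟨a1, a2⟩ := mul_ne_zero_iff.1 h
  have b1 : ‖z‖ < R := lt_of_not_ge fun h => a1 (hR _ h)
  have b2 : ‖z + x‖ < R := lt_of_not_ge fun h => a2 (hR _ h)
  have b3 := norm_sub_le (z + x) z
  rw [add_sub_cancel_left] at b3
  linarith

theorem conv_supp (μ : Measure V) {ψ : V → ℝ} (h2 : HasCompactSupport ψ) :
    HasCompactSupport fun x => ∫ z, ψ z * ψ (z + x) ∂μ := by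
  obtain ⟨R, R0, hR⟩ := supp_ball h2
  exact HasCompactSupport.intro (isCompact_closedBall 0 (2 * R)) fun x hx =>
    conv_zero μ hR x (le_of_not_ge fun h => hx (mem_closedBall_zero_iff.2 h))

theorem conv_test (ν : Measure W) [ν.IsAddHaarMeasure] (μ : Measure V) [μ.IsAddHaarMeasure]
    (hd : Module.finrank ℝ W + 1 = Module.finrank ℝ V) {ψ : V → ℝ} (h1 : Continuous ψ)
    (h2 : HasCompactSupport ψ) : Test ν fun x => ∫ z, ψ z * ψ (z + x) ∂μ := by
  refine ⟨conv_cont μ h1 h2, conv_supp μ h2, fun x => ?_, fun J hJ => ?_⟩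
  · beta_reduce
    rw [← integral_add_right_eq_self (fun z => ψ z * ψ (z + -x)) x]
    simp only [add_neg_cancel_right, mul_comm]
  · obtain ⟨e, he⟩ : ∃ e, e ∉ LinearMap.range (J : W →ₗ[ℝ] V) := by
      by_contra! h
      have := LinearMap.finrank_range_le (J : W →ₗ[ℝ] V)
      rw [Submodule.eq_top_iff'.2 h, finrank_top] at this
      omega
    let T0 : (W × ℝ) →ₗ[ℝ] V := (J : W →ₗ[ℝ] V).coprod (LinearMap.toSpanSingleton ℝ V e)
    have hT : Function.Injective T0 := by
      refine (injective_iff_map_eq_zero _).2 fun p hp => ?_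
      have hp' : J p.1 + p.2 • e = 0 := hp
      have p2 : p.2 = 0 := by
        by_contra h
        refine he ⟨-(p.2⁻¹ • p.1), ?_⟩
        have : J p.1 = -(p.2 • e) := eq_neg_of_add_eq_zero_left hp'
        simp [this, smul_smul, h]
      rw [p2, zero_smul, add_zero] at hp'
      exact Prod.ext (hJ (by simpa using hp')) p2
    let T : (W × ℝ) ≃L[ℝ] V := (T0.linearEquivOfInjective hT
      (by simp [← hd])).toContinuousLinearEquiv
    have hTJ : ∀ y, T (y, 0) = J y := fun y => by simp [T, T0]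
    obtain ⟨c, c0, hc⟩ := haar (ν.prod volume) μ T.symm
    have e2 : ∀ y, ∫ z, ψ z * ψ (z + J y) ∂μ =
        c * ∫ z : W × ℝ, ψ (T z) * ψ (T (z + (y, 0))) ∂(ν.prod volume) := by
      intro y
      rw [← hc]
      simp only [map_add, T.apply_symm_apply, hTJ]
    simp only [e2, integral_const_mul]
    exact mul_nonneg c0 (sq_nonneg' ν (Ψ := fun z => ψ (T z)) (h1.comp T.continuous)
      (h2.comp_homeomorph T.toHomeomorph))

theorem shift_int {μ : Measure V} [μ.IsAddHaarMeasure] {k Ω : V → ℝ} (hk : LocallyIntegrable k μ)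
    (h1 : Continuous Ω) (h2 : HasCompactSupport Ω) (q : V) :
    Integrable (fun x => Ω x * k (x + q)) μ := by
  have := (hk.integrable_smul_left_of_hasCompactSupport (g := fun x => Ω (x - q)) (by fun_prop)
    (h2.comp_homeomorph (Homeomorph.subRight q))).comp_add_right q
  simpa using this

theorem pd {ι : Type*} [Fintype ι] {ν : Measure W} [ν.IsAddHaarMeasure] {μ : Measure V}
    [μ.IsAddHaarMeasure] (hd : Module.finrank ℝ W + 1 = Module.finrank ℝ V) {k η : V → ℝ}
    (h : Hyp ν μ k) (hk : LocallyIntegrable k μ) (h1 : Continuous η) (h2 : HasCompactSupport η)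
    (s : ι → ℝ) (p : ι → V) :
    0 ≤ ∑ a, ∑ b, s a * s b * ∫ x, (∫ z, η z * η (z + x) ∂μ) * k (x + (p a - p b)) ∂μ := by
  have c1 : ∀ a, HasCompactSupport fun z => η (z + p a) := fun a =>
    h2.comp_homeomorph (Homeomorph.addRight (p a))
  have c2 : HasCompactSupport fun z => ∑ a, s a * η (z + p a) := by
    have := HasCompactSupport.finset_sum (s := univ) (f := fun a z => s a * η (z + p a))
      fun a _ => (c1 a).mul_left
    have e : (fun z => ∑ a, s a * η (z + p a)) = ∑ a, fun z => s a * η (z + p a) := by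
      funext z; simp
    rw [e]; exact this
  have := h _ (conv_test ν μ hd (ψ := fun z => ∑ a, s a * η (z + p a)) (by fun_prop) c2)
  set Ω : V → ℝ := fun x => ∫ z, η z * η (z + x) ∂μ with hΩ
  have o1 : Continuous Ω := conv_cont μ h1 h2
  have o2 : HasCompactSupport Ω := conv_supp μ h2
  have e : ∀ x, ∫ z, (∑ a, s a * η (z + p a)) * (∑ a, s a * η (z + x + p a)) ∂μ =
      ∑ a, ∑ b, s a * s b * Ω (x - (p a - p b)) := by
    intro x
    have i1 : ∀ a b, Integrable (fun z => s a * η (z + p a) * (s b * η (z + x + p b))) μ :=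
      fun a b => Continuous.integrable_of_hasCompactSupport (by fun_prop)
        ((c1 a).mul_left.mul_right)
    simp only [sum_mul_sum]
    rw [integral_finsetSum _ fun a _ => integrable_finsetSum _ fun b _ => i1 a b]
    refine sum_congr rfl fun a _ => ?_
    rw [integral_finsetSum _ fun b _ => i1 a b]
    refine sum_congr rfl fun b _ => ?_
    rw [hΩ, ← integral_const_mul, ← integral_add_right_eq_self
      (fun z => s a * s b * (η z * η (z + (x - (p a - p b))))) (p a)]
    congr 1; funext z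
    rw [show z + p a + (x - (p a - p b)) = z + x + p b by abel]; ring
  simp only [e] at this
  simp only [sum_mul] at this
  have i2 : ∀ a b, Integrable (fun x => s a * s b * Ω (x - (p a - p b)) * k x) μ := by
    intro a b
    have := ((shift_int hk o1 o2 (p a - p b)).comp_sub_right (p a - p b)).const_mul (s a * s b)
    simpa [mul_assoc] using this
  rw [integral_finsetSum _ fun a _ => integrable_finsetSum _ fun b _ => i2 a b] at this
  refine this.trans_eq (sum_congr rfl fun a _ => ?_)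
  rw [integral_finsetSum _ fun b _ => i2 a b]
  refine sum_congr rfl fun b _ => ?_
  rw [← integral_const_mul, ← integral_add_right_eq_self _ (p a - p b)]
  simp only [add_sub_cancel_right, mul_assoc, hΩ]

theorem pd2 {ι : Type*} [Fintype ι] {ν : Measure W} [ν.IsAddHaarMeasure] {μ : Measure V}
    [μ.IsAddHaarMeasure] (hd : Module.finrank ℝ W + 1 = Module.finrank ℝ V) {k η : V → ℝ}
    (h : Hyp ν μ k) (hk : LocallyIntegrable k μ) (h1 : Continuous η) (h2 : HasCompactSupport η)
    (s : ι → ℝ) (p : ι → V) (e : V) :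
    0 ≤ ∑ a, ∑ b, s a * s b * ∫ x, (∫ z, η z * η (z + x) ∂μ) *
      (2 * k (x + (p a - p b)) - k (x + (p a - p b) + e) - k (x + (p a - p b) - e)) ∂μ := by
  have := pd hd h hk h1 h2 (ι := ι × Bool) (fun a => if a.2 then s a.1 else -s a.1)
    fun a => if a.2 then p a.1 else p a.1 + e
  refine this.trans_eq ?_
  rw [Fintype.sum_prod_type]
  refine sum_congr rfl fun a _ => ?_
  simp only [Fintype.sum_prod_type, Fintype.sum_bool, if_true, Bool.false_eq_true, if_false,
    ← sum_add_distrib]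
  refine sum_congr rfl fun b _ => ?_
  have i := shift_int hk (conv_cont μ h1 h2) (conv_supp μ h2)
  have e1 : p a - (p b + e) = p a - p b - e := by abel
  have e2 : p a + e - p b = p a - p b + e := by abel
  have e3 : p a + e - (p b + e) = p a - p b := by abel
  have e4 : ∀ x : V, x + (p a - p b) - e = x + (p a - p b - e) := fun x => by abel
  simp only [e1, e2, e3, e4, add_assoc, mul_sub, mul_left_comm _ (2 : ℝ)]
  rw [integral_sub (by exact ((i _).const_mul 2).sub (i _)) (i _),
    integral_sub ((i _).const_mul 2) (i _),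
    integral_const_mul]
  ring

end Pool.Agent.H.MP_937656_gt
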