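import Mathlib

/-! Sign vectors, chambers of hyperplane arrangements, creases of polyhedral norms. -/

namespace Pool.Agent.H.MP_937656_gt

open Filter Topology

variable {X κ ι β : Type*} [AddCommGroup X] [Module ℝ X]

noncomputable def sv (l : κ → X →ₗ[ℝ] ℝ) (x : X) : κ → SignType := fun j => SignType.sign (l j x)

def lex (s s' : κ → SignType) : κ → SignType := fun j => if s j = 0 then s' j else s j

theorem sv_smul (l : κ → X →ₗ[ℝ] ℝ) (x : X) {t : ℝ} (ht : 0 < t) : sv l (t • x) = sv l x := by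
  funext j; simp [sv, sign_mul, sign_pos ht]

theorem sign_ev {f : ℝ → ℝ} (hf : Continuous f) (h : f 0 ≠ 0) :
    ∀ᶠ ε in 𝓝[>] (0 : ℝ), SignType.sign (f ε) = SignType.sign (f 0) := by
  refine eventually_nhdsWithin_of_eventually_nhds ?_
  rcases h.lt_or_gt with h | h
  · filter_upwards [hf.continuousAt.eventually_lt continuousAt_const h] with ε hε
    rw [sign_neg hε, sign_neg h]
  · filter_upwards [continuousAt_const.eventually_lt hf.continuousAt h] with ε hε
    rw [sign_pos hε, sign_pos h]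

theorem sign_quad (A B C : ℝ) : ∀ᶠ ε in 𝓝[>] (0 : ℝ), SignType.sign (A + ε * B + ε ^ 2 * C) =
    if (if SignType.sign A = 0 then SignType.sign B else SignType.sign A) = 0 then SignType.sign C
    else (if SignType.sign A = 0 then SignType.sign B else SignType.sign A) := by
  by_cases hA : A = 0
  · by_cases hB : B = 0
    · filter_upwards [self_mem_nhdsWithin] with ε (hε : 0 < ε)
      simp [hA, hB, sign_mul, sign_pos (pow_pos hε 2)]
    · filter_upwards [self_mem_nhdsWithin, sign_ev (f := fun ε => B + ε * C) (by fun_prop)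
        (by simpa using hB)] with ε (hε : 0 < ε) h
      rw [show A + ε * B + ε ^ 2 * C = ε * (B + ε * C) by rw [hA]; ring, sign_mul, h]
      simp [hA, hB, sign_pos hε]
  · filter_upwards [sign_ev (f := fun ε => A + ε * B + ε ^ 2 * C) (by fun_prop)
        (by simpa using hA)] with ε h
    rw [h]; simp [hA]

theorem ev2 [Finite κ] (l : κ → X →ₗ[ℝ] ℝ) (w z y : X) : ∀ᶠ ε in 𝓝[>] (0 : ℝ),
    sv l (w + ε • z + ε ^ 2 • y) = lex (lex (sv l w) (sv l z)) (sv l y) := by
  filter_upwards [eventually_all.2 fun j => sign_quad (l j w) (l j z) (l j y)] with ε h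
  funext j
  simp only [sv, lex, map_add, map_smul, smul_eq_mul]
  exact h j

theorem ev1 [Finite κ] (l : κ → X →ₗ[ℝ] ℝ) (w z : X) : ∀ᶠ ε in 𝓝[>] (0 : ℝ),
    sv l (w + ε • z) = lex (sv l w) (sv l z) := by
  filter_upwards [ev2 l w z 0] with ε h
  rw [smul_zero, add_zero] at h
  rw [h]; funext j
  by_cases h0 : lex (sv l w) (sv l z) j = 0
  · rw [lex, if_pos h0, h0]; simp [sv]
  · rw [lex, if_neg h0]

def gen (l : κ → X →ₗ[ℝ] ℝ) (x : X) : Prop := ∀ j, l j x = 0 → l j = 0

theorem exists_gen [Finite κ] (l : κ → X →ₗ[ℝ] ℝ) : ∃ x, gen l x := by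
  obtain ⟨x, hx⟩ := Module.Dual.exists_forall_ne_zero_of_forall_exists
    (fun j : {j // l j ≠ 0} => l j) fun j => by
      by_contra! h
      exact j.2 (LinearMap.ext h)
  exact ⟨x, fun j hj => by_contra fun h => hx ⟨j, h⟩ hj⟩

theorem prop_of_ker {f g : X →ₗ[ℝ] ℝ} (hf : f ≠ 0) (h : ∀ x, f x = 0 → g x = 0) :
    ∃ c : ℝ, g = c • f := by
  obtain ⟨y, hy⟩ : ∃ y, f y ≠ 0 := by
    by_contra! h'
    exact hf (LinearMap.ext h')
  refine ⟨g y / f y, LinearMap.ext fun x => ?_⟩
  have := h (f y • x - f x • y) (by simp [mul_comm])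
  simp only [map_sub, map_smul, smul_eq_mul, LinearMap.smul_apply] at this ⊢
  field_simp
  linarith

theorem chamber [Fintype κ] (l : κ → X →ₗ[ℝ] ℝ) (F : (κ → SignType) → β)
    (H : ∀ m w z, l m w = 0 → (∀ j, l j w = 0 → ∃ c : ℝ, l j = c • l m) → l m z ≠ 0 →
      F (lex (sv l w) (sv l z)) = F (lex (sv l w) (sv l (-z))))
    {x y : X} (hx : gen l x) (hy : gen l y) : F (sv l x) = F (sv l y) := by
  classical
  suffices h : ∀ S : Finset κ, ∀ x y, gen l x → gen l y → (∀ j ∉ S, sv l x j = sv l y j) →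
      F (sv l x) = F (sv l y) from h Finset.univ x y hx hy (by simp)
  intro S
  induction S using Finset.strongInduction with
  | H S ih =>
  intro x y hx hy hs
  by_cases he : sv l x = sv l y
  · rw [he]
  obtain ⟨m, hm⟩ := Function.ne_iff.1 he
  have mS : m ∈ S := by_contra fun h => hm (hs m h)
  have m0 : l m ≠ 0 := fun h => hm (by simp [sv, h])
  have x0 : l m x ≠ 0 := fun h => m0 (hx m h)
  have y0 : l m y ≠ 0 := fun h => m0 (hy m h)
  have xy : l m x * l m y < 0 := by
    rcases x0.lt_or_gt with h1 | h1 <;> rcases y0.lt_or_gt with h2 | h2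
    · exact absurd (by simp [sv, sign_neg h1, sign_neg h2]) hm
    · exact mul_neg_of_neg_of_pos h1 h2
    · exact mul_neg_of_pos_of_neg h1 h2
    · exact absurd (by simp [sv, sign_pos h1, sign_pos h2]) hm
  set w := |l m y| • x + |l m x| • y with hw
  have w0 : l m w = 0 := by
    simp only [hw, map_add, map_smul, smul_eq_mul]
    rcases abs_cases (l m x) with h1 | h1 <;> rcases abs_cases (l m y) with h2 | h2 <;>
      rw [h1.1, h2.1] <;> nlinarith [h1.2, h2.2]
  have ws : ∀ j, sv l x j = sv l y j → sv l w j = sv l x j := by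
    intro j hj
    have p1 := abs_pos.2 x0
    have p2 := abs_pos.2 y0
    simp only [sv, hw, map_add, map_smul, smul_eq_mul] at hj ⊢
    rcases lt_trichotomy (l j x) 0 with h | h | h
    · rw [sign_neg h] at hj ⊢
      have := sign_eq_neg_one_iff.1 hj.symm
      exact sign_neg (by nlinarith)
    · rw [h, sign_zero] at hj ⊢
      rw [sign_eq_zero_iff.1 hj.symm]; simp
    · rw [sign_pos h] at hj ⊢
      have := sign_eq_one_iff.1 hj.symm
      exact sign_pos (by nlinarith)
  obtain ⟨z, hz⟩ := exists_gen fun j => (l j).domRestrict (LinearMap.ker (l m))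
  obtain ⟨ε, hε⟩ := (ev1 l w z).exists
  set w' := w + ε • (z : X) with hw'
  have w1 : l m w' = 0 := by
    have : l m z = 0 := z.2
    simp [hw', w0, this]
  have w2 : ∀ j, l j w' = 0 → ∃ c : ℝ, l j = c • l m := by
    intro j hj
    have h1 : sv l w' j = 0 := by simp [sv, hj]
    rw [hε, lex] at h1
    have h2 : l j z = 0 := by
      split_ifs at h1 with h
      · simpa [sv] using h1
      · exact absurd h1 h
    have h3 := hz j h2
    exact prop_of_ker m0 fun v hv => by simpa using LinearMap.congr_fun h3 ⟨v, hv⟩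
  have side : ∀ v, gen l v → (∀ j ∉ S, sv l w j = sv l v j) → ∀ d, sv l d m = sv l v m →
      (∀ j, l j d = 0 → l j = 0) → F (lex (sv l w') (sv l d)) = F (sv l v) := by
    intro v hv hvs d hd gd
    obtain ⟨τ, hτ⟩ := (ev1 l w' d).exists
    rw [← hτ]
    refine ih (S.erase m) (Finset.erase_ssubset mS) _ _ (fun j hj => ?_) hv fun j hj => ?_
    · have h1 : sv l (w' + τ • d) j = 0 := by simp only [sv, hj, sign_zero]
      rw [hτ, lex] at h1
      split_ifs at h1 with h
      · exact gd j (by simpa [sv] using h1)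
      · exact absurd h1 h
    · rw [hτ, lex]
      by_cases hjm : j = m
      · rw [hjm, if_pos (by simp [sv, w1]), hd]
      have jS : j ∉ S := fun h => hj (Finset.mem_erase.2 ⟨hjm, h⟩)
      by_cases l0 : l j = 0
      · simp [sv, l0]
      have h1 : sv l w j ≠ 0 := by
        rw [hvs j jS]
        exact fun h => l0 (hv j (by simpa [sv] using h))
      have h2 : sv l w' j = sv l w j := by rw [hε, lex, if_neg h1]
      rw [h2, if_neg h1, hvs j jS]
  rw [← side x hx (fun j hj => ws j (hs j hj)) x rfl hx,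
    ← side y hy (fun j hj => (ws j (hs j hj)).trans (hs j hj)) (-x) ?_
      fun j hj => hx j (by simpa using hj)]
  · exact H m w' x w1 w2 x0
  · simp only [sv, map_neg]
    rcases x0.lt_or_gt with h | h
    · rw [sign_pos (by linarith), sign_pos (by nlinarith)]
    · rw [sign_neg (by linarith), sign_neg (by nlinarith)]

noncomputable def nm (a : ι → X →ₗ[ℝ] ℝ) (x : X) : ℝ := ⨆ i, a i x

def df (a : ι → X →ₗ[ℝ] ℝ) : ι × ι → X →ₗ[ℝ] ℝ := fun p => a p.1 - a p.2

noncomputable def pick [Nonempty ι] (s : ι × ι → SignType) : ι :=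
  Classical.epsilon fun i => ∀ j, s (i, j) ≠ -1

noncomputable def cr [Nonempty ι] (a : ι → X →ₗ[ℝ] ℝ) (s : ι × ι → SignType) (ξ : X) : ℝ :=
  a (pick (lex s (sv (df a) ξ))) ξ - a (pick (lex s (sv (df a) (-ξ)))) ξ

variable [Finite ι] [Nonempty ι] (a : ι → X →ₗ[ℝ] ℝ)

theorem le_nm (i : ι) (x : X) : a i x ≤ nm a x :=
  le_ciSup (Finite.bddAbove_range fun i => a i x) i

theorem act {x : X} {i : ι} (h : ∀ j, sv (df a) x (i, j) ≠ -1) : nm a x = a i x := by
  refine le_antisymm (ciSup_le fun j => ?_) (le_nm a i x)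
  by_contra! hc
  exact h j (sign_neg (by simp [df, hc]))

theorem pick_spec (x : X) : ∀ j, sv (df a) x (pick (sv (df a) x), j) ≠ -1 := by
  refine Classical.epsilon_spec (p := fun i => ∀ j, sv (df a) x (i, j) ≠ -1) ?_
  obtain ⟨i, hi⟩ := exists_eq_ciSup_of_finite (f := fun i => a i x)
  refine ⟨i, fun j h => ?_⟩
  have h1 := sign_eq_neg_one_iff.1 h
  have h2 := le_nm a j x
  rw [nm, ← hi] at h2
  simp only [df, LinearMap.sub_apply] at h1
  linarith

theorem lex_ne {s s' : κ → SignType} {j : κ} (h : lex s s' j ≠ -1) : s j ≠ -1 := by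
  intro h'
  exact h (by simp [lex, h'])

theorem pick_lex (w z : X) : ∀ j, sv (df a) w (pick (lex (sv (df a) w) (sv (df a) z)), j) ≠ -1 := by
  obtain ⟨ε, hε⟩ := (ev1 (df a) w z).exists
  intro j
  have := pick_spec a (w + ε • z) j
  rw [hε] at this
  exact lex_ne this

theorem evD (w z y : X) : ∀ᶠ ε in 𝓝[>] (0 : ℝ),
    nm a (w + ε • z + ε ^ 2 • y) = nm a (w + ε • z) +
      ε ^ 2 * a (pick (lex (lex (sv (df a) w) (sv (df a) z)) (sv (df a) y))) y := by
  filter_upwards [ev1 (df a) w z, ev2 (df a) w z y] with ε h1 h2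
  have h3 := pick_spec a (w + ε • z + ε ^ 2 • y)
  have h4 := act a h3
  rw [h2] at h3 h4
  have h5 := act a (x := w + ε • z) (i := pick (lex (lex (sv (df a) w) (sv (df a) z))
    (sv (df a) y))) fun j => by rw [h1]; exact lex_ne (h3 j)
  rw [h4, h5]
  simp only [map_add, map_smul, smul_eq_mul]

theorem evC (w z ξ : X) : ∀ᶠ ε in 𝓝[>] (0 : ℝ),
    nm a (w + ε • z + ε ^ 2 • ξ) + nm a (w + ε • z + ε ^ 2 • (-ξ)) - 2 * nm a (w + ε • z) =
      ε ^ 2 * cr a (lex (sv (df a) w) (sv (df a) z)) ξ := by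
  filter_upwards [evD a w z ξ, evD a w z (-ξ)] with ε h1 h2
  rw [h1, h2, cr, map_neg]; ring

theorem cr_neg (he : ∀ x, nm a (-x) = nm a x) (w z ξ : X) :
    cr a (lex (sv (df a) (-w)) (sv (df a) (-z))) ξ = cr a (lex (sv (df a) w) (sv (df a) z)) ξ := by
  obtain ⟨ε, h1, h2, h3⟩ := ((evC a w z ξ).and ((evC a (-w) (-z) ξ).and self_mem_nhdsWithin)).exists
  have e0 : (0 : ℝ) < ε := h3
  rw [← he (-w + ε • -z + ε ^ 2 • ξ), ← he (-w + ε • -z + ε ^ 2 • -ξ), ← he (-w + ε • -z),
    show -(-w + ε • -z + ε ^ 2 • ξ) = w + ε • z + ε ^ 2 • -ξ by module,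
    show -(-w + ε • -z + ε ^ 2 • -ξ) = w + ε • z + ε ^ 2 • ξ by module,
    show -(-w + ε • -z) = w + ε • z by module] at h2
  exact mul_left_cancel₀ (pow_pos e0 2).ne' (by linarith)

theorem lex_zero (l : κ → X →ₗ[ℝ] ℝ) (s : κ → SignType) : lex s (sv l 0) = s := by
  funext j
  by_cases h : s j = 0 <;> simp [lex, sv, h]

theorem cr_nonneg (w ξ : X) : 0 ≤ cr a (sv (df a) w) ξ := by
  obtain ⟨ε, h1, h3⟩ := ((evC a w 0 ξ).and self_mem_nhdsWithin).exists
  have e0 : (0 : ℝ) < ε := h3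
  rw [lex_zero, smul_zero, add_zero, act a (pick_spec a w)] at h1
  have h4 := le_nm a (pick (sv (df a) w)) (w + ε ^ 2 • ξ)
  have h5 := le_nm a (pick (sv (df a) w)) (w + ε ^ 2 • -ξ)
  simp only [map_add, map_smul, map_neg, smul_eq_mul] at h4 h5
  exact nonneg_of_mul_nonneg_right (by linarith) (pow_pos e0 2)

end Pool.Agent.H.MP_937656_gt
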