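import Mathlib
import Pool.Agent.H.MP_937656_gt.A
import Pool.Agent.H.MP_937656_gt.B

/-! Limits of rescaled second differences of the kernel. -/

namespace Pool.Agent.H.MP_937656_gt

open MeasureTheory Set Metric Filter Topology

section
variable {X ι : Type*} [NormedAddCommGroup X] [NormedSpace ℝ X] [FiniteDimensional ℝ X]
  [Finite ι] [Nonempty ι] (a : ι → X →ₗ[ℝ] ℝ)

theorem nm_lip : ∃ Λ : ℝ, 0 < Λ ∧ ∀ x y, |nm a x - nm a y| ≤ Λ * ‖x - y‖ := by
  obtain ⟨Λ, hΛ⟩ := Finite.bddAbove_range fun i => ‖LinearMap.toContinuousLinearMap (a i)‖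
  have h : ∀ x y, nm a x - nm a y ≤ (|Λ| + 1) * ‖x - y‖ := by
    intro x y
    rw [act a (pick_spec a x)]
    generalize pick (sv (df a) x) = i
    have h1 := le_nm a i y
    have h2 := (LinearMap.toContinuousLinearMap (a i)).le_opNorm (x - y)
    have h3 : ‖LinearMap.toContinuousLinearMap (a i)‖ ≤ |Λ| + 1 := by
      linarith [hΛ ⟨i, rfl⟩, le_abs_self Λ]
    have h4 := mul_le_mul_of_nonneg_right h3 (norm_nonneg (x - y))
    simp only [LinearMap.coe_toContinuousLinearMap', map_sub, Real.norm_eq_abs] at h2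
    linarith [le_abs_self (a i x - a i y)]
  refine ⟨|Λ| + 1, by positivity, fun x y => abs_sub_le_iff.2 ⟨h x y, ?_⟩⟩
  rw [norm_sub_rev]; exact h y x

theorem nm_cont : Continuous (nm a) := by
  obtain ⟨Λ, h0, h⟩ := nm_lip a
  exact (LipschitzWith.of_dist_le_mul (K := ⟨Λ, h0.le⟩) fun x y => by
    rw [Real.dist_eq, dist_eq_norm]; exact h x y).continuous

theorem lim1 {w : X} (hw : nm a w ≠ 0) (z y : X) :
    Tendsto (fun ε : ℝ => ((nm a (w + ε • z))⁻¹ - (nm a (w + ε • z + ε ^ 2 • y))⁻¹) / ε ^ 2)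
      (𝓝[>] 0) (𝓝 (a (pick (lex (lex (sv (df a) w) (sv (df a) z)) (sv (df a) y))) y /
        nm a w ^ 2)) := by
  have c := nm_cont a
  have t1 : Tendsto (fun ε : ℝ => nm a (w + ε • z)) (𝓝[>] 0) (𝓝 (nm a w)) := by
    have : Continuous fun ε : ℝ => nm a (w + ε • z) := by fun_prop
    simpa using (this.tendsto 0).mono_left nhdsWithin_le_nhds
  have t2 : Tendsto (fun ε : ℝ => nm a (w + ε • z + ε ^ 2 • y)) (𝓝[>] 0) (𝓝 (nm a w)) := by
    have : Continuous fun ε : ℝ => nm a (w + ε • z + ε ^ 2 • y) := by fun_prop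
    simpa using (this.tendsto 0).mono_left nhdsWithin_le_nhds
  have t3 := (tendsto_const_nhds (x := a (pick (lex (lex (sv (df a) w) (sv (df a) z))
    (sv (df a) y))) y)).div (t1.mul t2) (mul_ne_zero hw hw)
  rw [← sq] at t3
  refine t3.congr' ?_
  filter_upwards [evD a w z y, t1.eventually_ne hw, t2.eventually_ne hw, self_mem_nhdsWithin]
    with ε h1 h2 h3 (h4 : 0 < ε)
  simp only [Pi.div_apply]
  field_simp
  linarith

theorem lim2 {w : X} (hw : nm a w ≠ 0) (z ξ : X) {u : ℝ} (hu : |u| < 1) :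
    Tendsto (fun ε : ℝ => (2 * (nm a (w + ε • z + ε ^ 2 • u • ξ))⁻¹
      - (nm a (w + ε • z + ε ^ 2 • (u + 1) • ξ))⁻¹
      - (nm a (w + ε • z + ε ^ 2 • (u - 1) • ξ))⁻¹) / ε ^ 2) (𝓝[>] 0)
      (𝓝 ((1 - |u|) * cr a (lex (sv (df a) w) (sv (df a) z)) ξ / nm a w ^ 2)) := by
  obtain ⟨u1, u2⟩ := abs_lt.1 hu
  have t := ((lim1 a hw z ((u + 1) • ξ)).add (lim1 a hw z ((u - 1) • ξ))).sub
    ((lim1 a hw z (u • ξ)).const_mul 2)
  have e1 : sv (df a) ((u + 1) • ξ) = sv (df a) ξ := sv_smul _ _ (by linarith)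
  have e2 : sv (df a) ((u - 1) • ξ) = sv (df a) (-ξ) := by
    rw [show (u - 1) • ξ = (1 - u) • -ξ by module]; exact sv_smul _ _ (by linarith)
  rw [e1, e2] at t
  convert t using 2
  · ring
  · rcases lt_trichotomy u 0 with h | h | h
    · have : sv (df a) (u • ξ) = sv (df a) (-ξ) := by
        rw [show u • ξ = (-u) • -ξ by module]; exact sv_smul _ _ (by linarith)
      rw [this, abs_of_neg h, cr]
      simp only [map_smul, smul_eq_mul]; ring
    · subst h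
      simp only [cr, map_smul, smul_eq_mul, abs_zero]; ring
    · rw [sv_smul _ _ h, abs_of_pos h, cr]
      simp only [map_smul, smul_eq_mul]; ring

end

variable {E ι : Type*} [NormedAddCommGroup E] [NormedSpace ℝ E] [FiniteDimensional ℝ E]
  [MeasurableSpace E] [BorelSpace E] [Finite ι] [Nonempty ι] (μ : Measure E) [μ.IsAddHaarMeasure]

theorem locint (hd : 3 ≤ Module.finrank ℝ E) (n : ℕ) (hn : n ≤ 2) :
    LocallyIntegrable (fun x : E × ℝ × ℝ => (‖x.1‖ ^ n)⁻¹) (μ.prod volume) := by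
  rw [locallyIntegrable_iff]
  intro K hK
  obtain ⟨R, R0, hR⟩ := hK.isBounded.exists_pos_norm_lt
  have h1 : IntegrableOn (fun w : E => (‖w‖ ^ n)⁻¹) (ball 0 R) μ :=
    integrableOn_ball_of_norm_le_rpow (C := 1) (α := n) (by omega)
      (by exact_mod_cast (by omega : n < Module.finrank ℝ E))
      (ae_of_all _ fun w => by
        rw [Real.rpow_neg (norm_nonneg _), Real.rpow_natCast, one_mul, Real.norm_of_nonneg]
        positivity) (by measurability)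
  have : IsFiniteMeasure ((volume : Measure (ℝ × ℝ)).restrict (ball 0 R)) :=
    ⟨by simpa using measure_ball_lt_top⟩
  have h2 := Integrable.comp_fst h1 ((volume : Measure (ℝ × ℝ)).restrict (ball 0 R))
  rw [Measure.prod_restrict] at h2
  refine IntegrableOn.mono_set h2 fun x hx => ⟨?_, ?_⟩ <;> rw [mem_ball_zero_iff]
  · exact (norm_fst_le x).trans_lt (hR x hx)
  · exact (norm_snd_le x).trans_lt (hR x hx)

theorem ae_fst (hd : 3 ≤ Module.finrank ℝ E) (q : E) :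
    ∀ᵐ x : E × ℝ × ℝ ∂(μ.prod volume), x.1 + q ≠ 0 := by
  have : Nontrivial E := Module.nontrivial_of_finrank_pos (R := ℝ) (by omega)
  refine Measure.quasiMeasurePreserving_fst.ae (p := fun w => w + q ≠ 0) ?_
  filter_upwards [Measure.ae_ne μ (-q)] with w hw h
  exact hw (eq_neg_of_add_eq_zero_left h)

theorem ae_snd : ∀ᵐ x : E × ℝ × ℝ ∂(μ.prod volume), x.2.1 ≠ 0 := by
  refine Measure.quasiMeasurePreserving_snd.ae (p := fun w : ℝ × ℝ => w.1 ≠ 0) ?_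
  exact Measure.quasiMeasurePreserving_fst.ae (Measure.ae_ne volume (0 : ℝ))

noncomputable def kk (a : ι → (E × ℝ × ℝ) →ₗ[ℝ] ℝ) (ε σ : ℝ) (x : E × ℝ × ℝ) : ℝ :=
  (nm a (x.1, ε * σ * x.2.1, ε ^ 2 * x.2.2))⁻¹

noncomputable def gg (a : ι → (E × ℝ × ℝ) →ₗ[ℝ] ℝ) (w : E) (t u : ℝ) : ℝ :=
  (1 - |u|) * cr a (lex (sv (df a) (w, 0, 0)) (sv (df a) (0, t, 0))) (0, 0, 1) /
    nm a (w, 0, 0) ^ 2

variable (a : ι → (E × ℝ × ℝ) →ₗ[ℝ] ℝ)

theorem kk_meas (ε σ : ℝ) : Measurable (kk a ε σ) := by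
  have := nm_cont a
  exact Measurable.inv (Continuous.measurable (by fun_prop))

theorem kk_loc (hd : 3 ≤ Module.finrank ℝ E) {κ : ℝ} (κ0 : 0 < κ) (hκ : ∀ x, κ * ‖x‖ ≤ nm a x)
    (ε σ : ℝ) : LocallyIntegrable (kk a ε σ) (μ.prod volume) := by
  refine ((locint μ hd 1 one_le_two).smul κ⁻¹).mono (kk_meas a ε σ).aestronglyMeasurable ?_
  filter_upwards [ae_fst μ hd 0] with x hx
  rw [add_zero] at hx
  have h0 := norm_pos_iff.2 hx
  have h1 := (mul_le_mul_of_nonneg_left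
    (norm_fst_le ((x.1, ε * σ * x.2.1, ε ^ 2 * x.2.2) : E × ℝ × ℝ)) κ0.le).trans (hκ _)
  have h2 : 0 < κ * ‖x.1‖ := by positivity
  simp only [kk, Pi.smul_apply, smul_eq_mul, pow_one, ← mul_inv]
  rw [Real.norm_of_nonneg (inv_nonneg.2 (h2.le.trans h1)), Real.norm_of_nonneg (by positivity)]
  exact inv_anti₀ h2 h1

theorem dct (hd : 3 ≤ Module.finrank ℝ E) {κ : ℝ} (κ0 : 0 < κ) (hκ : ∀ x, κ * ‖x‖ ≤ nm a x)
    {Ω : E × ℝ × ℝ → ℝ} (h1 : Continuous Ω) (h2 : HasCompactSupport Ω)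
    (h3 : ∀ x, Ω x ≠ 0 → |x.2.2| < 1) (σ : ℝ) (q : E) (τ : ℝ) :
    Integrable (fun x => Ω x * gg a (x.1 + q) (σ * (x.2.1 + τ)) x.2.2) (μ.prod volume) ∧
    Tendsto (fun ε : ℝ => (∫ x, Ω x * (2 * kk a ε σ (x + (q, τ, 0))
      - kk a ε σ (x + (q, τ, 0) + (0, 0, 1)) - kk a ε σ (x + (q, τ, 0) - (0, 0, 1)))
        ∂(μ.prod volume)) / ε ^ 2) (𝓝[>] 0)
      (𝓝 (∫ x, Ω x * gg a (x.1 + q) (σ * (x.2.1 + τ)) x.2.2 ∂(μ.prod volume))) := by
  obtain ⟨Λ, Λ0, hΛ⟩ := nm_lip a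
  simp only [← integral_div]
  set F : ℝ → E × ℝ × ℝ → ℝ := fun ε x => Ω x * (2 * kk a ε σ (x + (q, τ, 0))
      - kk a ε σ (x + (q, τ, 0) + (0, 0, 1)) - kk a ε σ (x + (q, τ, 0) - (0, 0, 1))) / ε ^ 2
    with hF
  have m : ∀ ε, AEStronglyMeasurable (F ε) (μ.prod volume) := by
    intro ε
    have := kk_meas a ε σ
    have := h1.measurable
    exact Measurable.aestronglyMeasurable (by simp only [hF]; fun_prop)
  have bi := ((shift_int (locint μ hd 2 le_rfl) h1 h2 (q, τ, 0)).norm).const_mul (2 * Λ / κ ^ 2)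
  have hb : ∀ᵐ x ∂(μ.prod volume), ∀ ε : ℝ, 0 < ε →
      ‖F ε x‖ ≤ 2 * Λ / κ ^ 2 * ‖Ω x * (‖(x + (q, τ, 0)).1‖ ^ 2)⁻¹‖ := by
    filter_upwards [ae_fst μ hd q] with x hx ε hε
    have h0 := norm_pos_iff.2 hx
    have key : ∀ t u u' : ℝ, |u - u'| = ε ^ 2 →
        |(nm a (x.1 + q, t, u))⁻¹ - (nm a (x.1 + q, t, u'))⁻¹| ≤
          ε ^ 2 * (Λ / (κ * ‖x.1 + q‖) ^ 2) := by
      intro t u u' hu
      have b := fun u : ℝ => (mul_le_mul_of_nonneg_left
        (norm_fst_le ((x.1 + q, t, u) : E × ℝ × ℝ)) κ0.le).trans (hκ _)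
      have p : 0 < κ * ‖x.1 + q‖ := by positivity
      have p1 := p.trans_le (b u)
      have p2 := p.trans_le (b u')
      have l := hΛ (x.1 + q, t, u') (x.1 + q, t, u)
      rw [show ‖((x.1 + q, t, u') : E × ℝ × ℝ) - (x.1 + q, t, u)‖ = ε ^ 2 by
        simp [Prod.norm_def, abs_sub_comm u', hu, sq_nonneg]] at l
      rw [inv_sub_inv p1.ne' p2.ne', abs_div, abs_of_pos (mul_pos p1 p2), ← mul_div_assoc,
        mul_comm (ε ^ 2), sq (κ * _)]
      exact div_le_div₀ (by positivity) l (by positivity) (mul_le_mul (b u) (b u') p.le p1.le)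
    have k1 := key (ε * σ * (x.2.1 + τ)) (ε ^ 2 * x.2.2) (ε ^ 2 * (x.2.2 + 1))
      (by rw [show ε ^ 2 * x.2.2 - ε ^ 2 * (x.2.2 + 1) = -ε ^ 2 by ring]; simp)
    have k2 := key (ε * σ * (x.2.1 + τ)) (ε ^ 2 * x.2.2) (ε ^ 2 * (x.2.2 - 1))
      (by rw [show ε ^ 2 * x.2.2 - ε ^ 2 * (x.2.2 - 1) = ε ^ 2 by ring]; simp)
    simp only [hF, kk, Prod.fst_add, Prod.snd_add, Prod.fst_sub, Prod.snd_sub, add_zero, sub_zero,
      Real.norm_eq_abs, abs_div, abs_mul, abs_inv, abs_pow, abs_norm, abs_of_pos hε]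
    rw [div_le_iff₀ (by positivity)]
    refine (mul_le_mul_of_nonneg_left (?_ : _ ≤ 2 * (ε ^ 2 * (Λ / (κ * ‖x.1 + q‖) ^ 2)))
      (abs_nonneg _)).trans_eq (by field_simp)
    rw [abs_le] at k1 k2 ⊢
    constructor <;> linarith [k1.1, k1.2, k2.1, k2.2]
  have hl : ∀ᵐ x ∂(μ.prod volume), Tendsto (fun ε => F ε x) (𝓝[>] 0)
      (𝓝 (Ω x * gg a (x.1 + q) (σ * (x.2.1 + τ)) x.2.2)) := by
    filter_upwards [ae_fst μ hd q] with x hx
    by_cases h0 : Ω x = 0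
    · simp [hF, h0]
    have n0 : nm a (x.1 + q, 0, 0) ≠ 0 := by
      refine (lt_of_lt_of_le (mul_pos κ0 (norm_pos_iff.2 fun h => hx ?_)) (hκ _)).ne'
      exact congrArg Prod.fst h
    have := (lim2 a n0 (0, σ * (x.2.1 + τ), 0) (0, 0, 1) (h3 x h0)).const_mul (Ω x)
    refine this.congr fun ε => ?_
    simp only [hF, kk, Prod.fst_add, Prod.snd_add, Prod.fst_sub, Prod.snd_sub, add_zero, sub_zero,
      Prod.smul_mk, Prod.mk_add_mk, smul_zero, smul_eq_mul, mul_zero, zero_add, mul_one, mul_assoc,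
      mul_div_assoc]
  refine ⟨bi.mono' (aestronglyMeasurable_of_tendsto_ae (𝓝[>] (0 : ℝ)) m hl) ?_,
    tendsto_integral_filter_of_dominated_convergence _ (Eventually.of_forall m) ?_ bi hl⟩
  · filter_upwards [hb, hl] with x h1 h2
    refine le_of_tendsto h2.norm ?_
    filter_upwards [self_mem_nhdsWithin] with ε hε using h1 ε hε
  · filter_upwards [self_mem_nhdsWithin] with ε hε
    filter_upwards [hb] with x h using h ε hε

end Pool.Agent.H.MP_937656_gt
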