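import Mathlib
import Pool.Agent.H.MP_937656_gt.C

/-! The crease of the norm along a hyperplane has no jumps. -/

namespace Pool.Agent.H.MP_937656_gt

open MeasureTheory Set Metric Filter Topology

variable {E W ι : Type*} [NormedAddCommGroup E] [NormedSpace ℝ E] [FiniteDimensional ℝ E]
  [MeasurableSpace E] [BorelSpace E] [Finite ι] [Nonempty ι] (μ : Measure E) [μ.IsAddHaarMeasure]
  [NormedAddCommGroup W] [NormedSpace ℝ W] [FiniteDimensional ℝ W] [MeasurableSpace W]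
  [BorelSpace W] {ν : Measure W} [ν.IsAddHaarMeasure] (a : ι → (E × ℝ × ℝ) →ₗ[ℝ] ℝ)

theorem kk_hyp (hH : Hyp ν (μ.prod volume) fun x => (nm a x)⁻¹) {ε σ : ℝ} (hε : ε ≠ 0)
    (hσ : σ ≠ 0) : Hyp ν (μ.prod volume) (kk a ε σ) := by
  let T : (E × ℝ × ℝ) ≃L[ℝ] (E × ℝ × ℝ) := ((LinearEquiv.refl ℝ E).prodCongr
    ((LinearEquiv.smulOfNeZero ℝ ℝ (ε * σ) (mul_ne_zero hε hσ)).prodCongr
      (LinearEquiv.smulOfNeZero ℝ ℝ (ε ^ 2) (pow_ne_zero 2 hε)))).toContinuousLinearEquiv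
  exact transfer (μ.prod volume) (μ.prod volume) T hH

theorem lim3 (hd : 3 ≤ Module.finrank ℝ E)
    (hW : Module.finrank ℝ W + 1 = Module.finrank ℝ (E × ℝ × ℝ)) {κ : ℝ} (κ0 : 0 < κ)
    (hκ : ∀ x, κ * ‖x‖ ≤ nm a x) (hH : Hyp ν (μ.prod volume) fun x => (nm a x)⁻¹)
    {η : E × ℝ × ℝ → ℝ} (h1 : Continuous η) (h2 : HasCompactSupport η)
    (h3 : ∀ x, ∫ z, η z * η (z + x) ∂(μ.prod volume) ≠ 0 → |x.2.2| < 1) {σ : ℝ} (hσ : σ ≠ 0)
    (s : Fin 3 → ℝ) (q : Fin 3 → E) (τ : Fin 3 → ℝ) :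
    0 ≤ ∑ i, ∑ j, s i * s j * ∫ x, (∫ z, η z * η (z + x) ∂(μ.prod volume)) *
      gg a (x.1 + (q i - q j)) (σ * (x.2.1 + (τ i - τ j))) x.2.2 ∂(μ.prod volume) := by
  have t := tendsto_finsetSum Finset.univ fun i _ => tendsto_finsetSum Finset.univ fun j _ =>
    (dct μ a hd κ0 hκ (conv_cont _ h1 h2) (conv_supp _ h2) h3 σ (q i - q j)
      (τ i - τ j)).2.const_mul (s i * s j)
  refine ge_of_tendsto t ?_
  filter_upwards [self_mem_nhdsWithin] with ε (hε : 0 < ε)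
  have := pd2 hW (kk_hyp μ a hH hε.ne' hσ) (kk_loc μ a hd κ0 hκ ε σ) h1 h2 s
    (fun i => (q i, τ i, 0)) (0, 0, 1)
  simp only [Prod.mk_sub_mk, sub_zero] at this
  simp only [← mul_div_assoc, ← Finset.sum_div]
  positivity

theorem gg_pos (w : E) {t : ℝ} (ht : 0 < t) (u : ℝ) : gg a w t u = gg a w 1 u := by
  rw [gg, gg, show ((0, t, 0) : E × ℝ × ℝ) = t • (0, 1, 0) by simp, sv_smul _ _ ht]

theorem gg_neg (w : E) {t : ℝ} (ht : t < 0) (u : ℝ) : gg a w t u = gg a w (-1) u := by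
  rw [gg, gg, show ((0, t, 0) : E × ℝ × ℝ) = (-t) • (0, -1, 0) by simp,
    sv_smul _ _ (neg_pos.2 ht)]

theorem sv_loc {w0 : E} (h : ∀ p, df a p (w0, 0, 0) = 0 → ∀ w, df a p (w, 0, 0) = 0) :
    ∀ᶠ w in 𝓝 (0 : E), sv (df a) (w + w0, 0, 0) = sv (df a) (w0, 0, 0) := by
  have : ∀ p, ∀ᶠ w in 𝓝 (0 : E), sv (df a) (w + w0, 0, 0) p = sv (df a) (w0, 0, 0) p := by
    intro p
    have c : Continuous fun w : E => df a p (w + w0, 0, 0) :=
      (df a p).continuous_of_finiteDimensional.comp (by fun_prop)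
    rcases lt_trichotomy (df a p (w0, 0, 0)) 0 with h0 | h0 | h0
    · filter_upwards [c.continuousAt.eventually_lt (x₀ := 0) continuousAt_const
        (by simpa using h0)] with w hw
      rw [sv, sv, sign_neg hw, sign_neg h0]
    · exact Eventually.of_forall fun w => by rw [sv, sv, h p h0, h0]
    · filter_upwards [continuousAt_const.eventually_lt (x₀ := 0) c.continuousAt
        (by simpa using h0)] with w hw
      rw [sv, sv, sign_pos hw, sign_pos h0]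
  filter_upwards [eventually_all.2 this] with w hw using funext hw

theorem Q_pos (hd : 3 ≤ Module.finrank ℝ E) {κ : ℝ} (κ0 : 0 < κ) (hκ : ∀ x, κ * ‖x‖ ≤ nm a x)
    {Ω : E × ℝ × ℝ → ℝ} (h1 : Continuous Ω) (h2 : HasCompactSupport Ω) (h0 : ∀ x, 0 ≤ Ω x)
    (h00 : Ω 0 ≠ 0) (h3 : ∀ x, Ω x ≠ 0 → ‖x‖ < 1 / 2) (q : E) :
    0 < ∫ x, Ω x * ((1 - |x.2.2|) / nm a (x.1 + q, 0, 0) ^ 2) ∂(μ.prod volume) := by
  obtain ⟨Λ, Λ0, hΛ⟩ := nm_lip a
  have c := nm_cont a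
  have n0 : nm a 0 = 0 := by simp [nm]
  have hu : ∀ x, Ω x ≠ 0 → |x.2.2| < 1 / 2 := fun x hx =>
    ((norm_snd_le x.2).trans (norm_snd_le x)).trans_lt (h3 x hx)
  have b : ∀ w : E, κ * ‖w‖ ≤ nm a (w, 0, 0) := fun w => by simpa using hκ (w, 0, 0)
  have i1 : Integrable (fun x => Ω x * ((1 - |x.2.2|) / nm a (x.1 + q, 0, 0) ^ 2))
      (μ.prod volume) := by
    refine (((shift_int (locint μ hd 2 le_rfl) h1 h2 (q, 0, 0)).norm).const_mul
      (κ ^ 2)⁻¹).mono' (Measurable.aestronglyMeasurable ?_) ?_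
    · have := h1.measurable
      have := c.measurable
      fun_prop
    filter_upwards [ae_fst μ hd q] with x hx
    by_cases h : Ω x = 0
    · simp [h]
    have p : 0 < κ * ‖x.1 + q‖ := mul_pos κ0 (norm_pos_iff.2 hx)
    have := hu x h
    rw [norm_mul, norm_mul, mul_left_comm, Real.norm_of_nonneg (div_nonneg (by linarith)
      (sq_nonneg _)), Real.norm_of_nonneg (r := (_ ^ 2)⁻¹) (by positivity), ← mul_inv, ← mul_pow,
      inv_eq_one_div]
    refine mul_le_mul_of_nonneg_left (div_le_div₀ zero_le_one (by linarith [abs_nonneg x.2.2])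
      (by simpa using pow_pos p 2) (pow_le_pow_left₀ p.le (b _) 2)) (norm_nonneg _)
  have i2 := h1.integrable_of_hasCompactSupport (μ := μ.prod volume) h2
  have p0 := h1.integral_pos_of_hasCompactSupport_nonneg_nonzero (μ := μ.prod volume) h2 h0 h00
  refine lt_of_lt_of_le ?_ (integral_mono_ae (i2.mul_const ((1 / 2) / (Λ * (‖q‖ + 1)) ^ 2)) i1 ?_)
  · rw [integral_mul_const]; positivity
  filter_upwards [ae_fst μ hd q] with x hx
  by_cases h : Ω x = 0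
  · simp [h]
  have p : 0 < κ * ‖x.1 + q‖ := mul_pos κ0 (norm_pos_iff.2 hx)
  have p1 := p.trans_le (b _)
  have := hu x h
  refine mul_le_mul_of_nonneg_left (div_le_div₀ (by linarith) (by linarith) (pow_pos p1 2)
    (pow_le_pow_left₀ p1.le ?_ 2)) (h0 x)
  have l := hΛ (x.1 + q, 0, 0) 0
  rw [n0, sub_zero, sub_zero, abs_of_pos p1] at l
  refine l.trans (mul_le_mul_of_nonneg_left ?_ Λ0.le)
  have := (norm_fst_le x).trans_lt (h3 x h)
  have := norm_add_le x.1 q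
  simp only [Prod.norm_mk, norm_zero, max_self, norm_nonneg, sup_of_le_left]
  linarith

theorem nojump (hd : 3 ≤ Module.finrank ℝ E)
    (hW : Module.finrank ℝ W + 1 = Module.finrank ℝ (E × ℝ × ℝ)) {κ : ℝ} (κ0 : 0 < κ)
    (hκ : ∀ x, κ * ‖x‖ ≤ nm a x) (he : ∀ x, nm a (-x) = nm a x)
    (hH : Hyp ν (μ.prod volume) fun x => (nm a x)⁻¹) {w0 : E}
    (hw : ∀ p, df a p (w0, 0, 0) = 0 → ∀ w, df a p (w, 0, 0) = 0) :
    cr a (lex (sv (df a) (w0, 0, 0)) (sv (df a) (0, 1, 0))) (0, 0, 1) =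
      cr a (lex (sv (df a) (w0, 0, 0)) (sv (df a) (0, -1, 0))) (0, 0, 1) := by
  have hw' : ∀ p, df a p (-w0, 0, 0) = 0 → ∀ w, df a p (w, 0, 0) = 0 := fun p hp => hw p (by
    rw [show ((-w0, 0, 0) : E × ℝ × ℝ) = -(w0, 0, 0) by simp, map_neg] at hp
    exact neg_eq_zero.1 hp)
  obtain ⟨δ', δ0', hδ'⟩ := Metric.eventually_nhds_iff.1 ((sv_loc a hw).and (sv_loc a hw'))
  obtain ⟨δ, δ0, δ1, δ2⟩ : ∃ δ : ℝ, 0 < δ ∧ 2 * δ ≤ δ' ∧ 2 * δ ≤ 1 / 2 :=
    ⟨min (δ' / 2) (1 / 4), by positivity, by linarith [min_le_left (δ' / 2) (1 / 4)],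
      by linarith [min_le_right (δ' / 2) (1 / 4)]⟩
  let η : E × ℝ × ℝ → ℝ := fun x => max 0 (δ - ‖x‖)
  have e1 : Continuous η := by fun_prop
  have e0 : ∀ x, δ ≤ ‖x‖ → η x = 0 := fun x hx => max_eq_left (by linarith)
  have e2 : HasCompactSupport η := HasCompactSupport.intro (isCompact_closedBall 0 δ)
    fun x hx => e0 x (le_of_not_ge fun h => hx (mem_closedBall_zero_iff.2 h))
  have L := fun h3 σ hσ => lim3 μ a hd hW κ0 hκ hH e1 e2 h3 (σ := σ) hσ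
  set Ω : E × ℝ × ℝ → ℝ := fun x => ∫ z, η z * η (z + x) ∂(μ.prod volume) with hΩ
  have o1 : Continuous Ω := conv_cont _ e1 e2
  have o2 : HasCompactSupport Ω := conv_supp _ e2
  have o3 : ∀ x, Ω x ≠ 0 → ‖x‖ < 2 * δ := fun x hx =>
    lt_of_not_ge fun h => hx (conv_zero _ e0 x h)
  have o0 : ∀ x, 0 ≤ Ω x := fun x =>
    integral_nonneg fun z => mul_nonneg (le_max_left _ _) (le_max_left _ _)
  have o4 : Ω 0 ≠ 0 := by
    simp only [hΩ, add_zero]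
    refine ((e1.mul e1).integral_pos_of_hasCompactSupport_nonneg_nonzero (x := 0) e2.mul_right
      (fun z => mul_self_nonneg _) ?_).ne'
    simp [η, δ0, δ0.ne', δ0.le]
  have ot : ∀ x, Ω x ≠ 0 → |x.2.1| < 1 / 2 := fun x hx =>
    ((norm_fst_le x.2).trans (norm_snd_le x)).trans_lt ((o3 x hx).trans_le δ2)
  have ou : ∀ x, Ω x ≠ 0 → |x.2.2| < 1 := fun x hx =>
    ((norm_snd_le x.2).trans (norm_snd_le x)).trans_lt ((o3 x hx).trans_le (by linarith))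
  have fp : ∀ (σ : ℝ) (q : E) (τ : ℝ), |σ| = 1 → 1 ≤ σ * τ →
      (fun x => Ω x * gg a (x.1 + q) (σ * (x.2.1 + τ)) x.2.2) =
        fun x => Ω x * gg a (x.1 + q) 1 x.2.2 := by
    intro σ q τ h1 h2
    funext x
    by_cases h : Ω x = 0
    · simp [h]
    have h3 : |σ * x.2.1| < 1 / 2 := by rw [abs_mul, h1, one_mul]; exact ot x h
    rw [gg_pos a _ (by rw [mul_add]; linarith [(abs_lt.1 h3).1])]
  have fn : ∀ (σ : ℝ) (q : E) (τ : ℝ), |σ| = 1 → σ * τ ≤ -1 →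
      (fun x => Ω x * gg a (x.1 + q) (σ * (x.2.1 + τ)) x.2.2) =
        fun x => Ω x * gg a (x.1 + q) (-1) x.2.2 := by
    intro σ q τ h1 h2
    funext x
    by_cases h : Ω x = 0
    · simp [h]
    have h3 : |σ * x.2.1| < 1 / 2 := by rw [abs_mul, h1, one_mul]; exact ot x h
    rw [gg_neg a _ (by rw [mul_add]; linarith [(abs_lt.1 h3).2])]
  have I := fun σ q τ => (dct μ a hd κ0 hκ o1 o2 ou σ q τ).1
  have z0 : ∫ x, Ω x * gg a (x.1 + 0) (1 * (x.2.1 + 0)) x.2.2 ∂(μ.prod volume) +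
      ∫ x, Ω x * gg a (x.1 + 0) (-1 * (x.2.1 + 0)) x.2.2 ∂(μ.prod volume) =
      ∫ x, Ω x * gg a (x.1 + 0) 1 x.2.2 ∂(μ.prod volume) +
      ∫ x, Ω x * gg a (x.1 + 0) (-1) x.2.2 ∂(μ.prod volume) := by
    have i1 := I 1 0 1
    have i2 := I 1 0 (-1)
    rw [fp _ _ _ (by simp) (by simp)] at i1
    rw [fn _ _ _ (by simp) (by simp)] at i2
    rw [← integral_add (I _ _ _) (I _ _ _), ← integral_add i1 i2]
    refine integral_congr_ae ?_
    filter_upwards [ae_snd μ] with x hx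
    rcases hx.lt_or_gt with h | h
    · rw [gg_neg a _ (t := 1 * (x.2.1 + 0)) (by linarith),
        gg_pos a _ (t := -1 * (x.2.1 + 0)) (by linarith), add_comm]
    · rw [gg_pos a _ (t := 1 * (x.2.1 + 0)) (by linarith),
        gg_neg a _ (t := -1 * (x.2.1 + 0)) (by linarith)]
  have pq : ∀ (q : E) (t : ℝ), (q = w0 ∨ q = -w0) →
      ∫ x, Ω x * gg a (x.1 + q) t x.2.2 ∂(μ.prod volume) =
      cr a (lex (sv (df a) (q, 0, 0)) (sv (df a) (0, t, 0))) (0, 0, 1) *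
        ∫ x, Ω x * ((1 - |x.2.2|) / nm a (x.1 + q, 0, 0) ^ 2) ∂(μ.prod volume) := by
    intro q t hq
    rw [← integral_const_mul]
    congr 1; funext x
    by_cases h : Ω x = 0
    · simp [h]
    have := hδ' (y := x.1) (by
      rw [dist_zero_right]; exact ((norm_fst_le x).trans_lt (o3 x h)).trans_le δ1)
    have h4 : sv (df a) (x.1 + q, 0, 0) = sv (df a) (q, 0, 0) := by
      rcases hq with rfl | rfl
      exacts [this.1, this.2]
    rw [gg, h4]; ring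
  have n1 := cr_neg a he (w0, 0, 0) (0, 1, 0) (0, 0, 1)
  have n2 := cr_neg a he (w0, 0, 0) (0, -1, 0) (0, 0, 1)
  simp only [Prod.neg_mk, neg_zero, neg_neg] at n1 n2
  have q1 := Q_pos μ a hd κ0 hκ o1 o2 o0 o4 (fun x hx => (o3 x hx).trans_le δ2) w0
  have q2 := Q_pos μ a hd κ0 hκ o1 o2 o0 o4 (fun x hx => (o3 x hx).trans_le δ2) (-w0)
  have main : ∀ s : ℝ, 0 ≤ (∫ x, Ω x * gg a (x.1 + 0) 1 x.2.2 ∂(μ.prod volume) +
      ∫ x, Ω x * gg a (x.1 + 0) (-1) x.2.2 ∂(μ.prod volume)) +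
      s * (2 * (cr a (lex (sv (df a) (w0, 0, 0)) (sv (df a) (0, 1, 0))) (0, 0, 1) -
        cr a (lex (sv (df a) (w0, 0, 0)) (sv (df a) (0, -1, 0))) (0, 0, 1)) *
        (∫ x, Ω x * ((1 - |x.2.2|) / nm a (x.1 + w0, 0, 0) ^ 2) ∂(μ.prod volume) +
        ∫ x, Ω x * ((1 - |x.2.2|) / nm a (x.1 + -w0, 0, 0) ^ 2) ∂(μ.prod volume))) := by
    intro s
    have l1 := L ou 1 one_ne_zero ![1, s, -s] ![0, w0, w0] ![0, 1, -1]
    have l2 := L ou (-1) (by norm_num) ![1, -s, s] ![0, w0, w0] ![0, 1, -1]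
    simp only [Fin.sum_univ_three, Matrix.cons_val_zero, Matrix.cons_val_one, Matrix.cons_val_two,
      Matrix.head_cons, Matrix.tail_cons, sub_self, sub_zero, zero_sub, neg_neg] at l1 l2
    rw [fn 1 (-w0) (-1) (by simp) (by simp), fp 1 (-w0) 1 (by simp) (by simp),
      fp 1 w0 1 (by simp) (by simp), fp 1 0 (1 - -1) (by simp) (by norm_num),
      fn 1 w0 (-1) (by simp) (by simp), fn 1 0 (-1 - 1) (by simp) (by norm_num)] at l1
    rw [fp (-1) (-w0) (-1) (by simp) (by simp), fn (-1) (-w0) 1 (by simp) (by simp),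
      fn (-1) w0 1 (by simp) (by simp), fn (-1) 0 (1 - -1) (by simp) (by norm_num),
      fp (-1) w0 (-1) (by simp) (by simp), fp (-1) 0 (-1 - 1) (by simp) (by norm_num)] at l2
    simp only [pq _ _ (Or.inl rfl), pq _ _ (Or.inr rfl), n1, n2] at l1 l2
    linear_combination l1 + l2 + (1 + 2 * s ^ 2) * z0
  by_contra hne
  have hB := mul_ne_zero (mul_ne_zero two_ne_zero (sub_ne_zero.2 hne)) (add_pos q1 q2).ne'
  generalize (2 * (_ - _) * (_ + _) : ℝ) = B at main hB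
  generalize (∫ x, Ω x * gg a (x.1 + 0) 1 x.2.2 ∂(μ.prod volume) + _ : ℝ) = A at main
  have := main (-(A + 1) / B)
  rw [div_mul_cancel₀ _ hB] at this
  linarith

end Pool.Agent.H.MP_937656_gt
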