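import Mathlib
import Pool.Agent.H.MP_937656_gt.D

/-! A polyhedral norm with positive definite reciprocal in dimension at least five is a sum of
absolute values of linear functionals. -/

namespace Pool.Agent.H.MP_937656_gt

open MeasureTheory Set Metric Filter Topology

variable {X W ι : Type*} [NormedAddCommGroup X] [NormedSpace ℝ X] [FiniteDimensional ℝ X]
  [MeasurableSpace X] [BorelSpace X] [Fintype ι] [Nonempty ι] (μ : Measure X) [μ.IsAddHaarMeasure]
  [NormedAddCommGroup W] [NormedSpace ℝ W] [FiniteDimensional ℝ W] [MeasurableSpace W]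
  [BorelSpace W] {ν : Measure W} [ν.IsAddHaarMeasure] (a : ι → X →ₗ[ℝ] ℝ)

theorem level2 (hd : 5 ≤ Module.finrank ℝ X)
    (hW : Module.finrank ℝ W + 1 = Module.finrank ℝ X) {κ : ℝ} (κ0 : 0 < κ)
    (hκ : ∀ x, κ * ‖x‖ ≤ nm a x) (he : ∀ x, nm a (-x) = nm a x)
    (hH : Hyp ν μ fun x => (nm a x)⁻¹) (f : X →ₗ[ℝ] ℝ) (ξ : X) (hξ : f ξ = 1)
    {x y : LinearMap.ker f} (hx : gen (fun j => (df a j).domRestrict (LinearMap.ker f)) x)
    (hy : gen (fun j => (df a j).domRestrict (LinearMap.ker f)) y) :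
    cr a (sv (df a) x) ξ = cr a (sv (df a) y) ξ := by
  refine chamber (fun j => (df a j).domRestrict (LinearMap.ker f)) (fun s => cr a s ξ) ?_ hx hy
  intro m w z hw hg hz
  have hw' : df a m w = 0 := hw
  have hz' : df a m z ≠ 0 := hz
  have fz : f z = 0 := z.2
  let E : Submodule ℝ X := LinearMap.ker f ⊓ LinearMap.ker (df a m)
  let T0 : (E × ℝ × ℝ) →ₗ[ℝ] X := E.subtype.coprod
    ((LinearMap.toSpanSingleton ℝ X z).coprod (LinearMap.toSpanSingleton ℝ X ξ))
  have hT0 : ∀ p, T0 p = p.1 + (p.2.1 • (z : X) + p.2.2 • ξ) := fun p => rfl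
  have hb : Function.Bijective T0 := by
    constructor
    · refine (injective_iff_map_eq_zero _).2 fun p hp => ?_
      rw [hT0] at hp
      have p1 : f p.1 = 0 := p.1.2.1
      have p2 : df a m p.1 = 0 := p.1.2.2
      have h1 := congrArg f hp
      simp only [map_add, map_smul, p1, fz, hξ, smul_eq_mul, mul_zero, mul_one, zero_add,
        map_zero] at h1
      rw [h1, zero_smul, add_zero] at hp
      have h2 := congrArg (df a m) hp
      simp only [map_add, map_smul, p2, smul_eq_mul, zero_add, map_zero, mul_eq_zero, hz',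
        or_false] at h2
      rw [h2, zero_smul, add_zero] at hp
      exact Prod.ext (Subtype.ext hp) (Prod.ext h2 h1)
    · intro v
      refine ⟨(⟨v - f v • ξ - (df a m (v - f v • ξ) / df a m z) • (z : X), ?_, ?_⟩,
        df a m (v - f v • ξ) / df a m z, f v), ?_⟩
      · simp [hξ, fz]
      · show df a m _ = 0
        rw [map_sub, map_smul, smul_eq_mul, div_mul_cancel₀ _ hz', sub_self]
      · rw [hT0]; simp only []; abel
  let T : (E × ℝ × ℝ) ≃L[ℝ] X := (LinearEquiv.ofBijective T0 hb).toContinuousLinearEquiv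
  have hT : ∀ p, T p = T0 p := fun p => rfl
  have hr := T.toLinearEquiv.finrank_eq
  have hr' : Module.finrank ℝ (E × ℝ × ℝ) = Module.finrank ℝ E + 2 := by simp
  let _ : MeasurableSpace E := borel E
  have : BorelSpace E := ⟨rfl⟩
  let a' : ι → (E × ℝ × ℝ) →ₗ[ℝ] ℝ := fun i => a i ∘ₗ T0
  have s1 : ∀ p, sv (df a') p = sv (df a) (T0 p) := fun p => rfl
  have s2 : ∀ s p, cr a' s p = cr a s (T0 p) := fun s p => by
    simp only [cr, s1, map_neg]; rfl
  have c0 : 0 < ‖(T.symm : X →L[ℝ] E × ℝ × ℝ)‖ + 1 := by positivity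
  have := nojump (Measure.addHaar : Measure E) (ν := ν) a' (by omega) (by omega)
    (κ := κ / (‖(T.symm : X →L[ℝ] E × ℝ × ℝ)‖ + 1)) (by positivity) (fun p => ?_)
    (fun p => by show nm a (T0 (-p)) = nm a (T0 p); rw [map_neg, he])
    (transfer μ _ T hH) (w0 := ⟨w, w.2, hw'⟩) fun p hp v => ?_
  · simp only [s1, s2, hT0, ZeroMemClass.coe_zero, zero_smul, one_smul, add_zero, zero_add,
      neg_smul] at this
    exact this
  · refine le_trans ?_ (hκ (T p))
    have h1 := (T.symm : X →L[ℝ] E × ℝ × ℝ).le_opNorm (T p)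
    rw [ContinuousLinearEquiv.coe_coe, T.symm_apply_apply] at h1
    rw [div_mul_eq_mul_div, div_le_iff₀ c0, mul_assoc]
    exact mul_le_mul_of_nonneg_left (by nlinarith [norm_nonneg (T p)]) κ0.le
  · have hp' : df a p w = 0 := by
      have : df a p (T0 (⟨w, w.2, hw'⟩, 0, 0)) = 0 := hp
      simpa [hT0] using this
    obtain ⟨c, hc⟩ := hg p hp'
    have h1 := LinearMap.congr_fun hc ⟨v, v.2.1⟩
    have h2 : df a m v = 0 := v.2.2
    show df a p (T0 (v, 0, 0)) = 0
    simpa [hT0, h2] using h1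

theorem level1 (hd : 5 ≤ Module.finrank ℝ X)
    (hW : Module.finrank ℝ W + 1 = Module.finrank ℝ X) {κ : ℝ} (κ0 : 0 < κ)
    (hκ : ∀ x, κ * ‖x‖ ≤ nm a x) (he : ∀ x, nm a (-x) = nm a x)
    (hH : Hyp ν μ fun x => (nm a x)⁻¹) :
    ∃ (n : ℕ) (v : Fin n → X →ₗ[ℝ] ℝ), ∀ x, nm a x = ∑ i, |v i x| := by
  classical
  let S := {H : Submodule ℝ X // ∃ p, df a p ≠ 0 ∧ LinearMap.ker (df a p) = H}
  have : Finite S := Finite.of_surjective
    (fun p : {p // df a p ≠ 0} => (⟨_, p.1, p.2, rfl⟩ : S)) (by
      rintro ⟨_, p, hp, rfl⟩; exact ⟨⟨p, hp⟩, rfl⟩)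
  let _ : Fintype S := Fintype.ofFinite S
  choose r r0 r1 using fun H : S => H.2
  have : ∀ H : S, ∃ ξ, df a (r H) ξ = 1 := fun H => by
    obtain ⟨y, hy⟩ : ∃ y, df a (r H) y ≠ 0 := by
      by_contra! h'
      exact r0 H (LinearMap.ext h')
    exact ⟨(df a (r H) y)⁻¹ • y, by simp [hy]⟩
  choose ξ hξ using this
  choose x0 hx0 using fun H : S =>
    exists_gen fun j => (df a j).domRestrict (LinearMap.ker (df a (r H)))
  let c : S → ℝ := fun H => cr a (sv (df a) (x0 H)) (ξ H)
  let G : (ι × ι → SignType) → X →ₗ[ℝ] ℝ := fun s =>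
    a (pick s) - ∑ H, (c H / 2 * (s (r H) : ℝ)) • df a (r H)
  have hG : ∀ x y, gen (df a) x → gen (df a) y → G (sv (df a) x) = G (sv (df a) y) := by
    intro x y hx hy
    refine chamber (df a) G ?_ hx hy
    intro m w z hw hg hz
    have m0 : df a m ≠ 0 := fun h => hz (by simp [h])
    let H : S := ⟨_, m, m0, rfl⟩
    have k1 : ∀ v, df a (r H) v = 0 ↔ df a m v = 0 := fun v => by
      rw [← LinearMap.mem_ker, r1 H, LinearMap.mem_ker]
    have hg' : ∀ j, df a j w = 0 → ∃ c : ℝ, df a j = c • df a (r H) := fun j hj => by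
      obtain ⟨c, hc⟩ := hg j hj
      exact prop_of_ker (r0 H) fun v hv => by simp [hc, (k1 v).1 hv]
    have w0 := (k1 w).2 hw
    have l1 : ∀ z z', SignType.sign (df a (r H) z) = SignType.sign (df a (r H) z') →
        lex (sv (df a) w) (sv (df a) z) = lex (sv (df a) w) (sv (df a) z') := by
      intro z z' h
      funext j
      simp only [lex]
      split_ifs with h0
      · obtain ⟨c, hc⟩ := hg' j (by simpa [sv] using h0)
        simp [sv, hc, sign_mul, h]
      · rfl
    have main : G (lex (sv (df a) w) (sv (df a) (ξ H))) =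
        G (lex (sv (df a) w) (sv (df a) (-ξ H))) := by
      have cw : c H = cr a (sv (df a) w) (ξ H) :=
        level2 μ a hd hW κ0 hκ he hH (df a (r H)) (ξ H) (hξ H) (y := ⟨w, w0⟩) (hx0 H)
          fun j hj => by
            obtain ⟨c, hc⟩ := hg' j hj
            ext v
            have : df a (r H) v = 0 := v.2
            simp [hc, this]
      obtain ⟨c', hc'⟩ := hg' (pick (lex (sv (df a) w) (sv (df a) (ξ H))),
          pick (lex (sv (df a) w) (sv (df a) (-ξ H)))) (by
        simp only [df, LinearMap.sub_apply]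
        rw [← act a (pick_lex a w (ξ H)), ← act a (pick_lex a w (-ξ H)), sub_self])
      have c1 : c' = c H := by
        have := LinearMap.congr_fun hc' (ξ H)
        rw [LinearMap.smul_apply, hξ, smul_eq_mul, mul_one] at this
        rw [cw, ← this]; rfl
      have e1 : ∀ H' ∈ Finset.univ.erase H, ∀ z, lex (sv (df a) w) (sv (df a) z) (r H') =
          sv (df a) w (r H') := by
        intro H' hH' z
        refine if_neg fun h => Finset.ne_of_mem_erase hH' (Subtype.ext ?_)
        obtain ⟨c, hc⟩ := hg' (r H') (by simpa [sv] using h)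
        have c0 : c ≠ 0 := fun h => r0 H' (by rw [hc, h, zero_smul])
        rw [← r1 H', ← r1 H, hc, LinearMap.ker_smul _ _ c0]
      have e2 : lex (sv (df a) w) (sv (df a) (ξ H)) (r H) = 1 := by simp [lex, sv, w0, hξ]
      have e3 : lex (sv (df a) w) (sv (df a) (-ξ H)) (r H) = -1 := by simp [lex, sv, w0, hξ]
      have e4 : ∀ z, ∑ H', (c H' / 2 * (lex (sv (df a) w) (sv (df a) z) (r H') : ℝ)) •
          df a (r H') = (c H / 2 * (lex (sv (df a) w) (sv (df a) z) (r H) : ℝ)) • df a (r H) +
          ∑ H' ∈ Finset.univ.erase H, (c H' / 2 * (sv (df a) w (r H') : ℝ)) • df a (r H') := by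
        intro z
        rw [← Finset.add_sum_erase _ _ (Finset.mem_univ H)]
        congr 1
        exact Finset.sum_congr rfl fun H' hH' => by rw [e1 H' hH']
      simp only [G]
      rw [e4, e4, e2, e3]
      rw [c1, df] at hc'
      rw [sub_eq_iff_eq_add.1 hc']
      simp only [SignType.coe_one, SignType.coe_neg_one]
      module
    have z0 : df a (r H) z ≠ 0 := fun h => hz ((k1 z).1 h)
    rcases z0.lt_or_gt with h | h
    · rw [l1 z (-ξ H) (by simp [hξ, sign_neg h]), l1 (-z) (ξ H) (by simp [hξ, sign_pos (neg_pos.2 h)]),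
        main]
    · rw [l1 z (ξ H) (by simp [hξ, sign_pos h]), 
        l1 (-z) (-ξ H) (by simp [hξ, sign_neg (neg_lt_zero.2 h)]), main]
  obtain ⟨y, hy⟩ := exists_gen (df a)
  set g := G (sv (df a) y) with hg
  have c0 : ∀ H, 0 ≤ c H := fun H => cr_nonneg a _ _
  have f1 : ∀ x, gen (df a) x → nm a x = g x + ∑ H, c H / 2 * |df a (r H) x| := by
    intro x hx
    rw [hg, ← hG x y hx hy, act a (pick_spec a x)]
    simp only [G, LinearMap.sub_apply, LinearMap.sum_apply, LinearMap.smul_apply, smul_eq_mul, sv,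
      mul_assoc, sign_mul_self]
    ring
  have f2 : ∀ x, nm a x = g x + ∑ H, c H / 2 * |df a (r H) x| := by
    intro x
    have cn := nm_cont a
    have cg := g.continuous_of_finiteDimensional
    have cd := fun j => (df a j).continuous_of_finiteDimensional
    have t1 : Continuous fun ε : ℝ => nm a (x + ε • y) := by fun_prop
    have t2 : Continuous fun ε : ℝ =>
        g (x + ε • y) + ∑ H, c H / 2 * |df a (r H) (x + ε • y)| := by fun_prop
    have := tendsto_nhds_unique_of_eventuallyEq
      ((t1.tendsto 0).mono_left (nhdsWithin_le_nhds (s := Ioi 0)))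
      ((t2.tendsto 0).mono_left nhdsWithin_le_nhds) (by
        filter_upwards [ev1 (df a) x y] with ε hε
        refine f1 _ fun j hj => ?_
        have h1 : sv (df a) (x + ε • y) j = 0 := by simp only [sv, hj, sign_zero]
        rw [hε, lex] at h1
        split_ifs at h1 with h
        · exact hy j (by simpa [sv] using h1)
        · exact absurd h1 h)
    simpa using this
  refine ⟨_, fun i => (c ((Fintype.equivFin S).symm i) / 2) •
    df a (r ((Fintype.equivFin S).symm i)), fun x => ?_⟩
  rw [(Fintype.equivFin S).symm.sum_comp fun H => |((c H / 2) • df a (r H)) x|]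
  have h1 := f2 x
  have h2 := f2 (-x)
  simp only [he, map_neg, abs_neg] at h2
  simp only [LinearMap.smul_apply, smul_eq_mul, abs_mul,
    fun H => abs_of_nonneg (div_nonneg (c0 H) zero_le_two)]
  linarith

end Pool.Agent.H.MP_937656_gt
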