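import Mathlib
import Pool.Agent.H.MP_937656_gt.E

/-! Polar coordinates and the facet description of a polytope. -/

namespace Pool.Agent.H.MP_937656_gt

open MeasureTheory Set Metric Filter Topology
open scoped RealInnerProductSpace Pointwise

theorem polar {V : Type*} [NormedAddCommGroup V] [NormedSpace ℝ V] [FiniteDimensional ℝ V]
    [MeasurableSpace V] [BorelSpace V] [Nontrivial V] (μ : Measure V) [μ.IsAddHaarMeasure]
    {F : V → ℝ} (hF : Integrable F μ) :
    ∫ x, F x ∂μ = ∫ u : sphere (0 : V) 1,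
      (∫ r in Ioi (0 : ℝ), r ^ (Module.finrank ℝ V - 1) * F (r • (u : V))) ∂μ.toSphere := by
  have mp := μ.measurePreserving_homeomorphUnitSphereProd
  have me := (homeomorphUnitSphereProd V).measurableEmbedding
  have e : ∀ x : ({0}ᶜ : Set V), ((homeomorphUnitSphereProd V x).2 : ℝ) •
      ((homeomorphUnitSphereProd V x).1 : V) = x := fun x => by
    have := homeomorphUnitSphereProd_symm_apply_coe V (homeomorphUnitSphereProd V x)
    rw [Homeomorph.symm_apply_apply] at this
    exact this.symm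
  let G : sphere (0 : V) 1 × Ioi (0 : ℝ) → ℝ := fun p => F ((p.2 : ℝ) • (p.1 : V))
  have i : Integrable G (μ.toSphere.prod (.volumeIoiPow (Module.finrank ℝ V - 1))) := by
    rw [← mp.integrable_comp_emb me]
    have := (integrableOn_iff_comap_subtypeVal (s := ({0}ᶜ : Set V))
      (measurableSet_singleton _).compl).1 hF.integrableOn
    convert this using 1
    funext x; simp only [G, Function.comp, e]
  calc ∫ x, F x ∂μ = ∫ x : ({(0)}ᶜ : Set V), F x ∂(μ.comap (↑)) := by
        rw [integral_subtype_comap (measurableSet_singleton _).compl F, restrict_compl_singleton]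
    _ = ∫ p, G p ∂μ.toSphere.prod (.volumeIoiPow (Module.finrank ℝ V - 1)) := by
        rw [← mp.integral_comp me G]
        simp only [G, e]
    _ = _ := by
        rw [integral_prod _ i]
        congr 1; funext u
        simp only [Measure.volumeIoiPow, ENNReal.ofReal, G]
        rw [integral_withDensity_eq_integral_smul,
          integral_subtype_comap measurableSet_Ioi
            fun r => Real.toNNReal (r ^ (Module.finrank ℝ V - 1)) • F (r • (u : V)),
          setIntegral_congr_fun measurableSet_Ioi fun x hx => ?_]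
        · rw [NNReal.smul_def, Real.coe_toNNReal _ (pow_nonneg hx.out.le _), smul_eq_mul]
        · exact (measurable_subtype_coe.pow_const _).real_toNNReal

variable {V : Type} [NormedAddCommGroup V] [InnerProductSpace ℝ V] [FiniteDimensional ℝ V]

theorem hrep (S : Finset V) (h0 : (0 : V) ∈ interior (convexHull ℝ (S : Set V))) :
    ∃ (ι : Type) (_ : Fintype ι) (_ : Nonempty ι) (a : ι → V →ₗ[ℝ] ℝ),
      ∀ x, x ∈ convexHull ℝ (S : Set V) ↔ nm a x ≤ 1 := by
  classical
  let P : Set V := {y | ∀ s ∈ S, ⟪s, y⟫ ≤ 1}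
  have hK : ∀ y ∈ P, ∀ x ∈ convexHull ℝ (S : Set V), ⟪x, y⟫ ≤ 1 := fun y hy =>
    convexHull_min (t := {x | ⟪x, y⟫ ≤ 1}) hy
      (convex_halfSpace_le (f := fun x => ⟪x, y⟫) ⟨fun _ _ => inner_add_left _ _ _,
        fun _ _ => real_inner_smul_left _ _ _⟩ 1)
  have hl : ∀ x : V, Convex ℝ {y | ⟪x, y⟫ ≤ 1} := fun x =>
    convex_halfSpace_le (f := fun y => ⟪x, y⟫) ⟨fun _ _ => inner_add_right _ _ _,
      fun _ _ => real_inner_smul_right _ _ _⟩ 1
  have hc : ∀ x : V, IsClosed {y | ⟪x, y⟫ ≤ 1} := fun x => isClosed_le (by fun_prop) (by fun_prop)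
  have Pe : P = ⋂ s ∈ S, {y | ⟪s, y⟫ ≤ 1} := by ext y; simp [P]
  have Pv : Convex ℝ P := Pe ▸ convex_iInter₂ fun s _ => hl s
  have Pc : IsCompact P := by
    obtain ⟨r, r0, hr⟩ := Metric.mem_nhds_iff.1 (mem_interior_iff_mem_nhds.1 h0)
    refine (isCompact_closedBall (0 : V) (2 / r)).of_isClosed_subset
      (Pe ▸ isClosed_biInter fun s _ => hc s) fun y hy => ?_
    rw [mem_closedBall_zero_iff]
    by_cases y0 : y = 0
    · rw [y0, norm_zero]; positivity
    have n0 := norm_pos_iff.2 y0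
    have := hK y hy ((r / 2 / ‖y‖) • y) (hr (by
      rw [mem_ball_zero_iff, norm_smul, Real.norm_of_nonneg (by positivity),
        div_mul_cancel₀ _ n0.ne']; linarith))
    rw [real_inner_smul_left, real_inner_self_eq_norm_sq, sq, ← mul_assoc,
      div_mul_cancel₀ _ n0.ne'] at this
    rw [le_div_iff₀ r0]; linarith
  have Pf : (P.extremePoints ℝ).Finite := by
    refine Set.Finite.of_finite_image (f := fun y => S.filter fun s => ⟪s, y⟫ = 1)
      ((S.powerset.finite_toSet).subset ?_) fun y hy y' hy' h => ?_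
    · rintro _ ⟨y, _, rfl⟩; exact Finset.mem_coe.2 (Finset.mem_powerset.2 (Finset.filter_subset _ _))
    have ev : ∀ s ∈ S, ∀ᶠ τ in 𝓝[>] (0 : ℝ), ⟪s, y + τ • (y - y')⟫ ≤ 1 := by
      intro s hs
      by_cases h1 : ⟪s, y⟫ = 1
      · have : s ∈ S.filter fun s => ⟪s, y'⟫ = 1 := by
          have h' : (S.filter fun s => ⟪s, y⟫ = 1) = S.filter fun s => ⟪s, y'⟫ = 1 := h
          rw [← h']; exact Finset.mem_filter.2 ⟨hs, h1⟩
        refine Eventually.of_forall fun τ => ?_
        simp [inner_add_right, real_inner_smul_right, inner_sub_right, h1,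
          (Finset.mem_filter.1 this).2]
      · have c : Continuous fun τ : ℝ => ⟪s, y + τ • (y - y')⟫ := by fun_prop
        exact eventually_nhdsWithin_of_eventually_nhds
          ((c.continuousAt.eventually_lt (x₀ := 0) continuousAt_const
            (by simpa using lt_of_le_of_ne (hy.1 s hs) h1)).mono fun _ h => h.le)
    obtain ⟨τ, h1, h2⟩ := (((eventually_all_finset S).2 ev).and self_mem_nhdsWithin).exists
    have τ0 : (0 : ℝ) < τ := h2
    refine ((mem_extremePoints.1 hy).2 _ h1 _ hy'.1 ⟨1 / (1 + τ), τ / (1 + τ), by positivity,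
      by positivity, by field_simp, ?_⟩).2.symm
    match_scalars <;> field_simp <;> ring
  have : Finite (P.extremePoints ℝ) := Pf
  have hne : Nonempty (P.extremePoints ℝ) :=
    (Pc.extremePoints_nonempty ⟨0, fun s _ => by simp⟩).to_subtype
  refine ⟨P.extremePoints ℝ, Fintype.ofFinite _, hne, fun y => innerₛₗ ℝ (y : V), fun x =>
    ⟨fun hx => ciSup_le fun y => ?_, fun hx => by_contra fun h => ?_⟩⟩
  · rw [innerₛₗ_apply_apply, real_inner_comm]; exact hK y y.2.1 x hx
  obtain ⟨f, u, h1, h2⟩ := geometric_hahn_banach_closed_point (convex_convexHull ℝ _)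
    (S.finite_toSet.isCompact_convexHull ℝ).isClosed h
  have u0 : 0 < u := by simpa using h1 0 (interior_subset h0)
  have h3 : P ⊆ {y | ⟪x, y⟫ ≤ 1} := by
    rw [← closure_convexHull_extremePoints Pc Pv]
    refine closure_minimal (convexHull_min (fun y hy => ?_) (hl x)) (hc x)
    have := (le_nm (fun y : P.extremePoints ℝ => innerₛₗ ℝ (y : V)) ⟨y, hy⟩ x).trans hx
    rwa [innerₛₗ_apply_apply, real_inner_comm] at this
  have : ⟪x, u⁻¹ • (InnerProductSpace.toDual ℝ V).symm f⟫ ≤ 1 := h3 fun s hs => by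
    rw [real_inner_smul_right, real_inner_comm, InnerProductSpace.toDual_symm_apply,
      inv_mul_le_iff₀ u0]
    linarith [h1 s (subset_convexHull ℝ _ hs)]
  rw [real_inner_smul_right, real_inner_comm, InnerProductSpace.toDual_symm_apply,
    inv_mul_le_iff₀ u0] at this
  linarith

theorem nm_smul {ι : Type*} [Finite ι] [Nonempty ι] (a : ι → V →ₗ[ℝ] ℝ) {t : ℝ} (ht : 0 ≤ t)
    (x : V) : nm a (t • x) = t * nm a x := by
  simp only [nm, map_smul, smul_eq_mul, Real.mul_iSup_of_nonneg ht]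

theorem nm_props {ι : Type*} [Finite ι] [Nonempty ι] (a : ι → V →ₗ[ℝ] ℝ) {K : Set V}
    (hK : ∀ x, x ∈ K ↔ nm a x ≤ 1) (hb : Bornology.IsBounded K) (hs : K = -K) :
    (∃ κ : ℝ, 0 < κ ∧ ∀ x, κ * ‖x‖ ≤ nm a x) ∧ ∀ x, nm a (-x) = nm a x := by
  obtain ⟨R, R0, hR⟩ := hb.exists_pos_norm_le
  have key : ∀ x t, 0 < t → (nm a x ≤ t ↔ t⁻¹ • x ∈ K) := fun x t ht => by
    rw [hK, nm_smul a (inv_nonneg.2 ht.le), inv_mul_le_iff₀ ht, mul_one]
  have low : ∀ x, R⁻¹ * ‖x‖ ≤ nm a x := by
    intro x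
    have h : ∀ t, 0 < t → nm a x ≤ t → R⁻¹ * ‖x‖ ≤ t := fun t ht h => by
      have := hR _ ((key x t ht).1 h)
      rw [norm_smul, norm_inv, Real.norm_of_nonneg ht.le, inv_mul_le_iff₀ ht] at this
      rw [inv_mul_le_iff₀ R0]; linarith
    rcases le_or_gt (nm a x) 0 with h0 | h0
    · have h1 : R⁻¹ * ‖x‖ ≤ 0 := le_of_forall_pos_le_add fun t ht => by
        simpa using h t ht (h0.trans ht.le)
      have h2 : x = 0 := norm_le_zero_iff.1 (nonpos_of_mul_nonpos_right h1 (inv_pos.2 R0))
      simp [h2, nm]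
    · exact h _ h0 le_rfl
  have ev : ∀ x, nm a (-x) ≤ nm a x := fun x => le_of_forall_pos_le_add fun t ht => by
    have p : 0 < nm a x + t := by
      have := (by positivity : 0 ≤ R⁻¹ * ‖x‖).trans (low x)
      linarith
    have := (key x _ p).1 (by linarith)
    rw [key _ _ p, smul_neg, hs]
    simpa using this
  exact ⟨⟨R⁻¹, inv_pos.2 R0, low⟩, fun x => le_antisymm (ev x) (by simpa using ev (-x))⟩

end Pool.Agent.H.MP_937656_gt
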